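import Pool.Agent.H15.Cut

set_option autoImplicit false

namespace Pool.Agent.Results.MP_7f396f_pr.NoCutoff

open Finset Filter Topology Matrix

noncomputable section

section
variable {G : Type} [Group G] [Fintype G] [DecidableEq G] (Z : Finset G)

/-- Simple random walk on the undirected Cayley multigraph with an edge `{g, g z}` for each
`g` and each `z ∈ Z`. -/
def P : Matrix G G ℝ := fun x y =>
  (((Z.filter fun z => y = x * z).card : ℝ) + (Z.filter fun z => x = y * z).card) / (2 * Z.card)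

def d (t : ℕ) : ℝ := ⨆ x : G, (1 / 2) * ∑ y, |(P Z ^ t) x y - 1 / (Fintype.card G : ℝ)|

def Tmix (ε : ℝ) : ℕ := sInf {t | d Z t ≤ ε}

/-- The largest eigenvalue of `P` other than the (simple) eigenvalue `1`. -/
def lam2 : ℝ := sSup {l : ℝ | l ≠ 1 ∧ ∃ f : G → ℝ, f ≠ 0 ∧ P Z *ᵥ f = l • f}
end

open MP_8d2225_pr.NoCutoff hiding P d Tmix lam2
open H15.Cut

section
variable {G : Type} [AddCommGroup G] [Fintype G] [DecidableEq G] {S : Finset G}

instance (priority := high) fM : Fintype (Multiplicative G) := ‹Fintype G›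

def Q (S : Finset G) : Matrix G G ℝ := fun x y => if y - x ∈ S then 1 / (S.card : ℝ) else 0

def A (S : Finset G) (g : G → ℝ) : G → ℝ := fun y => 1 / (S.card : ℝ) * ∑ s ∈ S, g (y + s)

lemma mulVec_A (g : G → ℝ) : Q S *ᵥ g = A S g := by
  ext x
  simp only [mulVec, dotProduct, Q, A, ite_mul, zero_mul]
  rw [← Equiv.sum_comp (Equiv.addLeft x), mul_sum]
  simp [sum_ite_mem]

lemma rowA (hS : ∀ s ∈ S, -s ∈ S) (t : ℕ) (x : G) :
    (fun y => (Q S ^ t) x y) = (A S)^[t] (fun y => if x = y then 1 else 0) := by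
  induction t with
  | zero => ext y; simp [one_apply]
  | succ t ih =>
    rw [Function.iterate_succ_apply', ← ih, ← mulVec_A]
    ext y
    rw [pow_succ, mul_apply]
    refine sum_congr rfl fun z _ => ?_
    have : z - y ∈ S ↔ y - z ∈ S := ⟨fun h => by simpa using hS _ h, fun h => by simpa using hS _ h⟩
    simp only [Q, this, mul_comm]

lemma sum_A (h : S.Nonempty) (g : G → ℝ) : ∑ y, A S g y = ∑ y, g y := by
  have : (0 : ℝ) < S.card := by exact_mod_cast h.card_pos
  simp only [A, ← mul_sum]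
  rw [sum_comm]
  simp only [shift, sum_const, nsmul_eq_mul]
  field_simp

lemma killS (h : S.Nonempty) {S' : Finset G} (h1 : S' ⊆ S) {g : G → ℝ}
    (h2 : ∀ y, ∑ s ∈ S', g (y + s) = 0) {c : ℝ} (h3 : c * S.card ≤ S'.card) :
    N (A S g) ≤ (1 - c) * N g := by
  have p : (0 : ℝ) < S.card := by exact_mod_cast h.card_pos
  have e : ∀ y, |A S g y| ≤ 1 / (S.card : ℝ) * ∑ s ∈ S \ S', |g (y + s)| := fun y => by
    have a := sum_sdiff (f := fun s => g (y + s)) h1
    rw [h2, add_zero] at a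
    rw [A, ← a, abs_mul, abs_of_pos (by positivity)]
    gcongr
    exact abs_sum_le_sum_abs _ _
  refine (sum_le_sum fun y _ => e y).trans ?_
  rw [← mul_sum, sum_comm]
  simp only [shift (fun y => |g y|), sum_const, nsmul_eq_mul]
  rw [card_sdiff_of_subset h1, Nat.cast_sub (card_le_card h1)]
  have : 0 ≤ N g := sum_nonneg fun _ _ => abs_nonneg _
  unfold N at *
  rw [div_mul_eq_mul_div, div_le_iff₀ (by positivity)]
  nlinarith [mul_le_mul_of_nonneg_right h3 this]

lemma iterA {R : (G → ℝ) → Prop} {c : ℝ} (hc : 0 ≤ c) (h1 : ∀ g, R g → R (A S g))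
    (h2 : ∀ g, R g → N (A S g) ≤ c * N g) {g : G → ℝ} (h : R g) (t : ℕ) :
    R ((A S)^[t] g) ∧ N ((A S)^[t] g) ≤ c ^ t * N g := by
  induction t with
  | zero => simpa
  | succ t ih =>
    rw [Function.iterate_succ_apply']
    refine ⟨h1 _ ih.1, (h2 _ ih.1).trans ?_⟩
    rw [pow_succ', mul_assoc]
    exact mul_le_mul_of_nonneg_left ih.2 hc

lemma A_add (t : ℕ) (f g : G → ℝ) : (A S)^[t] (f + g) = (A S)^[t] f + (A S)^[t] g := by
  induction t with
  | zero => rfl
  | succ t ih =>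
    simp only [Function.iterate_succ_apply', ih]
    ext y; simp only [A, Pi.add_apply, sum_add_distrib]; ring

lemma A_const (h : S.Nonempty) (t : ℕ) (c : ℝ) : (A S)^[t] (fun _ => c) = fun _ => c := by
  have p : (0 : ℝ) < S.card := by exact_mod_cast h.card_pos
  refine Function.iterate_fixed ?_ t
  ext y; simp only [A, sum_const, nsmul_eq_mul]; field_simp

lemma A_sum {ι : Type} (I : Finset ι) (v : ι → G) (g : G → ℝ) (y : G) :
    ∑ i ∈ I, A S g (y + v i) = A S (fun y => ∑ i ∈ I, g (y + v i)) y := by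
  simp only [A, ← mul_sum]
  rw [sum_comm]
  simp only [add_right_comm y]

def mu (S : Finset G) : Finset (Multiplicative G) := S.map Multiplicative.ofAdd.toEmbedding

lemma PQ (hS : ∀ s ∈ S, -s ∈ S) : P (mu S) = Q S := by
  have a : ∀ x y : G, (((mu S).filter fun z => Multiplicative.ofAdd y = Multiplicative.ofAdd x * z).card : ℝ)
      = if y - x ∈ S then 1 else 0 := fun x y => by
    rw [mu, filter_map, card_map]
    have : ∀ z : G, (Multiplicative.ofAdd y = Multiplicative.ofAdd x * Multiplicative.ofAdd z) ↔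
        z = y - x := fun z => by
      rw [← ofAdd_add, Equiv.apply_eq_iff_eq, eq_sub_iff_add_eq', eq_comm]
    simp only [Function.comp_def, Equiv.coe_toEmbedding, this, filter_eq']
    split_ifs <;> simp
  ext x y
  have e : x.toAdd - y.toAdd ∈ S ↔ y.toAdd - x.toAdd ∈ S :=
    ⟨fun h => by simpa using hS _ h, fun h => by simpa using hS _ h⟩
  have a1 := a x.toAdd y.toAdd
  have a2 := a y.toAdd x.toAdd
  simp only [ofAdd_toAdd, e] at a1 a2
  rw [P, a1, a2, mu, card_map]
  show _ = if y.toAdd - x.toAdd ∈ S then 1 / (S.card : ℝ) else 0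
  split_ifs <;> ring
end

variable {p k r : ℕ} [Fact p.Prime] [NeZero r]

def ST (p k r : ℕ) [Fact p.Prime] [NeZero r] : Finset (GG p k r) := insert 0 (SS p k r)

lemma ST_ne : (ST p k r).Nonempty := insert_nonempty _ _
lemma ST_neg : ∀ s ∈ ST p k r, -s ∈ ST p k r := fun s hs => by
  rcases mem_insert.1 hs with rfl | h
  · rw [neg_zero]; exact hs
  · exact mem_insert_of_mem (SS_neg s h)
lemma ST_card : ((ST p k r).card : ℝ) = (SS p k r).card + 1 := by
  rw [ST, card_insert_of_notMem zero_nm]; push_cast; rfl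
lemma ST_le : ((ST p k r).card : ℝ) ≤ (r + 2) * p ^ (k + 2) := by
  have a : ((SS p k r).card : ℝ) ≤ (r + 1) * p ^ (k + 2) := by exact_mod_cast SS_le
  have b : (1 : ℝ) ≤ p ^ (k + 2) := by exact_mod_cast ppos (p := p) (k := k)
  rw [ST_card]; linarith

lemma kB {g : GG p k r → ℝ} (h : ∀ y, ∑ v, g (y + (v, 0)) = 0) :
    N (A (ST p k r) g) ≤ (1 - 1 / (r + 2)) * N g := by
  refine killS ST_ne SB_sub (fun y => ?_) ?_
  · rw [SB, sum_image (fun a _ b _ h => congrArg Prod.fst h)]; exact h y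
  · rw [SB_card, div_mul_eq_mul_div, div_le_iff₀ (by positivity)]
    push_cast
    linarith [ST_le (p := p) (k := k) (r := r)]

lemma kA {g : GG p k r → ℝ} (h : ∀ y v, g (y + (v, 0)) = g y) (h' : ∑ y, g y = 0) :
    N (A (ST p k r) g) ≤ (1 - 1 / 3) * N g := by
  refine killS ST_ne (SA_sub univ) (fun y => ?_) ?_
  · rw [SA, sum_image (fun a _ b _ h => inj h), sum_product]
    refine sum_eq_zero fun a _ => ?_
    have e : ∀ v z, g (y + (v, z)) = g (y + (0, z)) := fun v z => by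
      rw [← h (y + (0, z)) v]; congr 1; ext <;> simp
    rw [← shift g y, Fintype.sum_prod_type] at h'
    simp only [add_comm _ y, e, sum_const, nsmul_eq_mul, mul_eq_zero, Nat.cast_eq_zero,
      card_eq_zero, univ_eq_empty_iff, not_isEmpty_of_nonempty, false_or] at h'
    simpa only [e] using h'
  · have a := ST_le (p := p) (k := k) (r := r)
    have b : (1 : ℝ) ≤ r := by exact_mod_cast NeZero.pos r
    have c : (0 : ℝ) < p ^ (k + 2) := by exact_mod_cast ppos (p := p) (k := k)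
    rw [SA_card, card_univ, cH]
    push_cast
    rw [show (p : ℝ) * (p * (p ^ k * r)) = r * p ^ (k + 2) by ring]
    nlinarith

lemma up (t : ℕ) (x : GG p k r) : 1 / 2 * ∑ y, |(Q (ST p k r) ^ t) x y -
    1 / (Fintype.card (GG p k r) : ℝ)| ≤ (1 - 1 / (r + 2)) ^ t + (1 - 1 / 3) ^ t := by
  have pp : (0 : ℝ) < p ^ (k + 2) := by exact_mod_cast ppos
  let e : GG p k r → ℝ := fun y => if x = y then 1 else 0
  let u : GG p k r → ℝ := fun y => (∑ v, e (y + (v, 0))) / p ^ (k + 2)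
  set c : ℝ := 1 / Fintype.card (GG p k r) with hc
  have e0 : ∀ y, 0 ≤ e y := fun y => by simp only [e]; split_ifs <;> norm_num
  have u0 : ∀ y, 0 ≤ u y := fun y => div_nonneg (sum_nonneg fun _ _ => e0 _) pp.le
  have c0 : 0 ≤ c := by positivity
  have se : ∑ y, e y = 1 := by simp [e]
  have su : ∑ y, u y = 1 := by
    simp only [u]
    rw [← sum_div, sum_comm]
    simp only [shift e, se]
    simp [pp.ne']
  have sc : ∑ _y : GG p k r, c = 1 := by
    simp only [c, sum_const, card_univ, nsmul_eq_mul]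
    exact mul_one_div_cancel (by positivity)
  have ui : ∀ y v, u (y + (v, 0)) = u y := fun y v => by
    simp only [u]
    rw [← Equiv.sum_comp (Equiv.addLeft v) (fun v => e (y + (v, 0)))]
    simp [add_assoc]
  have z : (0 : ℝ) ≤ 1 - 1 / (r + 2) := by
    rw [sub_nonneg, div_le_one (by positivity)]; linarith [(Nat.cast_nonneg r : (0 : ℝ) ≤ r)]
  have a1 := (iterA (S := ST p k r) (R := fun g => ∀ y, ∑ v, g (y + (v, 0)) = 0) z
    (fun g h y => by rw [A_sum]; simp [A, h]) (fun g => kB) (g := e - u) (fun y => by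
      simp only [Pi.sub_apply, sum_sub_distrib, ui]
      simp [u, mul_div_cancel₀ _ pp.ne']) t).2
  have a2 := (iterA (S := ST p k r) (R := fun g => (∀ y v, g (y + (v, 0)) = g y) ∧ ∑ y, g y = 0)
    (by norm_num) (fun g h => ⟨fun y v => by simp only [A, add_right_comm y, h.1],
      (sum_A ST_ne g).trans h.2⟩) (fun g h => kA h.1 h.2) (g := u - fun _ => c)
      ⟨fun y v => by simp only [Pi.sub_apply, ui], by
        simp only [Pi.sub_apply, sum_sub_distrib, su, sc, sub_self]⟩ t).2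
  have b : ∀ f g : GG p k r → ℝ, (∀ y, 0 ≤ f y) → (∀ y, 0 ≤ g y) → ∑ y, f y = 1 → ∑ y, g y = 1 →
      N (f - g) ≤ 2 := fun f g a b c d => by
    refine (sum_le_sum fun y _ => (abs_sub (f y) (g y))).trans ?_
    simp only [abs_of_nonneg (a _), abs_of_nonneg (b _), sum_add_distrib, c, d]; norm_num
  have b1 := mul_le_mul_of_nonneg_left (b e u e0 u0 se su) (pow_nonneg z t)
  have b2 := mul_le_mul_of_nonneg_left (b u (fun _ => c) u0 (fun _ => c0) su sc)
    (pow_nonneg (a := (1 - 1 / 3 : ℝ)) (by norm_num) t)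
  have b3 : ∀ y, (Q (ST p k r) ^ t) x y - c =
      (A (ST p k r))^[t] (e - u) y + (A (ST p k r))^[t] (u - fun _ => c) y := fun y => by
    have := congrFun (A_add (S := ST p k r) t ((e - u) + (u - fun _ => c)) fun _ => c) y
    rw [A_add t (e - u), A_const ST_ne, sub_add_sub_cancel, sub_add_cancel] at this
    rw [congrFun (rowA ST_neg t x) y, sub_eq_iff_eq_add]
    exact this
  have b4 : ∑ y, |(Q (ST p k r) ^ t) x y - c| ≤
      N ((A (ST p k r))^[t] (e - u)) + N ((A (ST p k r))^[t] (u - fun _ => c)) := by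
    simp only [b3, N, ← sum_add_distrib]
    exact sum_le_sum fun y _ => abs_add_le _ _
  linarith

lemma stepA (t : ℕ) {g : GG p k r → ℝ} (h : ∀ y, 0 ≤ g y) :
    (1 - 1 / r) * ∑ y ∈ R p k t ×ˢ univ, g y ≤ ∑ y ∈ R p k (t + 1) ×ˢ univ, A (ST p k r) g y := by
  have a : ∀ s : GG p k r, (∃ a x, s.1 = w p k a x) →
      ∑ y ∈ R p k t ×ˢ univ, g y ≤ ∑ y ∈ R p k (t + 1) ×ˢ univ, g (y + s) := by
    rintro s ⟨a, x, e⟩
    have := sum_image (s := R p k t ×ˢ univ) (g := fun y => y - s) (f := fun y => g (y + s))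
      (fun _ _ _ _ h => sub_left_injective h)
    simp only [sub_add_cancel] at this
    rw [← this]
    refine sum_le_sum_of_subset_of_nonneg ?_ fun _ _ _ => h _
    intro y hy
    obtain ⟨z, hz, rfl⟩ := mem_image.1 hy
    exact mem_product.2 ⟨mem_image.2 ⟨(z.1, a, x), by simpa using hz, by simp [e]⟩, mem_univ _⟩
  have a1 : ((ST p k r \ SB p k r).card : ℝ) * ∑ y ∈ R p k t ×ˢ univ, g y ≤
      ∑ s ∈ ST p k r, ∑ y ∈ R p k (t + 1) ×ˢ univ, g (y + s) := by
    rw [← nsmul_eq_mul]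
    refine (card_nsmul_le_sum _ _ _ fun s hs => a s ?_).trans (sum_le_sum_of_subset_of_nonneg
      sdiff_subset fun _ _ _ => sum_nonneg fun _ _ => h _)
    obtain ⟨b, c⟩ := mem_sdiff.1 hs
    rcases mem_insert.1 b with rfl | b
    · exact ⟨0, 0, by ext; simp [w]⟩
    rcases (mem_filter.1 b).2.2 with e | ⟨a, e⟩
    · exact (c (mem_image.2 ⟨s.1, mem_univ _, Prod.ext rfl e.symm⟩)).elim
    · exact ⟨_, _, e⟩
  have a2 : ((ST p k r).card : ℝ) ≤ (ST p k r \ SB p k r).card + p ^ (k + 2) := by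
    have := card_le_card_sdiff_add_card (s := ST p k r) (t := SB p k r)
    rw [SB_card] at this
    exact_mod_cast this
  have a3 : (r : ℝ) * p ^ (k + 2) ≤ (ST p k r).card := by
    have : (r : ℝ) * p ^ (k + 2) ≤ (SS p k r).card := by exact_mod_cast SS_ge
    rw [ST_card]; linarith
  have a4 : (0 : ℝ) < r := by exact_mod_cast NeZero.pos r
  have a5 : (0 : ℝ) < (ST p k r).card := by exact_mod_cast ST_ne.card_pos
  have a6 : 0 ≤ ∑ y ∈ R p k t ×ˢ univ, g y := sum_nonneg fun _ _ => h _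
  simp only [A, ← mul_sum]
  rw [sum_comm]
  have a7 : (1 - 1 / r : ℝ) ≤ 1 / (ST p k r).card * (ST p k r \ SB p k r).card := by
    rw [one_sub_div a4.ne', div_mul_eq_mul_div, div_le_div_iff₀ (by positivity) (by positivity)]
    nlinarith
  nlinarith [mul_le_mul_of_nonneg_right a7 a6, mul_le_mul_of_nonneg_left a1
    (by positivity : 0 ≤ 1 / ((ST p k r).card : ℝ))]

lemma low (t : ℕ) (ht : 2 * t ≤ k) : 1 - t / r - 1 / (p : ℝ) ^ 2 ≤
    1 / 2 * ∑ y, |(Q (ST p k r) ^ t) 0 y - 1 / (Fintype.card (GG p k r) : ℝ)| := by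
  have a4 : (1 : ℝ) ≤ r := by exact_mod_cast NeZero.pos r
  have b1 : (1 : ℝ) / r ≤ 1 := by rw [div_le_one (by positivity)]; linarith
  have h : ∀ t, (∀ y, 0 ≤ (A (ST p k r))^[t] (fun y => if 0 = y then 1 else 0) y) ∧
      ∑ y, (A (ST p k r))^[t] (fun y => if 0 = y then 1 else 0) y = 1 ∧ (1 - 1 / r) ^ t ≤
      ∑ y ∈ R p k t ×ˢ univ, (A (ST p k r))^[t] (fun y => if 0 = y then 1 else 0) y := fun t => by
    induction t with
    | zero => exact ⟨fun y => by dsimp; split_ifs <;> norm_num, by simp, by simp [R]⟩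
    | succ t ih =>
      rw [Function.iterate_succ_apply']
      refine ⟨fun y => ?_, (sum_A ST_ne _).trans ih.2.1, le_trans ?_ (stepA t ih.1)⟩
      · exact mul_nonneg (by positivity) (sum_nonneg fun _ _ => ih.1 _)
      · rw [pow_succ']; exact mul_le_mul_of_nonneg_left ih.2.2 (by linarith)
  obtain ⟨-, h1, h2⟩ := h t
  rw [← rowA (S := ST p k r) ST_neg t 0] at h1 h2
  have h3 := one_add_mul_le_pow (a := -(1 / (r : ℝ))) (by linarith) t
  rw [← sub_eq_add_neg, mul_neg, mul_one_div] at h3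
  linarith [tv_ge h1 (R p k t ×ˢ univ), small (p := p) (r := r) t ht]

lemma ed (t : ℕ) : d (mu (ST p k r)) t = ⨆ x : GG p k r, 1 / 2 * ∑ y, |(Q (ST p k r) ^ t) x y -
    1 / (Fintype.card (GG p k r) : ℝ)| := by
  rw [d, PQ ST_neg]
  rfl

lemma d_up (t : ℕ) : d (mu (ST p k r)) t ≤ (1 - 1 / (r + 2)) ^ t + (1 - 1 / 3) ^ t := by
  rw [ed]; exact ciSup_le (up t)

lemma d_low (t : ℕ) (ht : 2 * t ≤ k) : 1 - t / r - 1 / (p : ℝ) ^ 2 ≤ d (mu (ST p k r)) t := by
  rw [ed]
  refine le_trans ?_ (le_ciSup (Finite.bddAbove_range _) 0)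
  exact low t ht

lemma d_small {ε : ℝ} (h : 0 < ε) : ∃ t, d (mu (ST p k r)) t ≤ ε := by
  have b0 : (0 : ℝ) < 1 / (r + 2) := by positivity
  have b1 : (1 : ℝ) / (r + 2) < 1 := by
    rw [div_lt_one (by positivity)]; linarith [(Nat.cast_nonneg r : (0 : ℝ) ≤ r)]
  have := (tendsto_pow_atTop_nhds_zero_of_lt_one (r := 1 - 1 / ((r : ℝ) + 2)) (by linarith)
    (by linarith)).add (tendsto_pow_atTop_nhds_zero_of_lt_one (r := (1 - 1 / 3 : ℝ)) (by norm_num)
    (by norm_num))
  obtain ⟨t, ht⟩ := (this.eventually (ge_mem_nhds (by linarith : (0 + 0 : ℝ) < ε))).exists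
  exact ⟨t, (d_up t).trans ht⟩

lemma prim : ∃ t, ∀ x y, 0 < (P (mu (ST p k r)) ^ t) x y := by
  set c : ℝ := 1 / Fintype.card (Multiplicative (GG p k r)) with hc
  have c0 : 0 < c := by positivity
  obtain ⟨t, ht⟩ := d_small (p := p) (k := k) (r := r) (show 0 < c / 4 by positivity)
  refine ⟨t, fun x y => ?_⟩
  have a := (le_ciSup (Finite.bddAbove_range _) x).trans ht
  have b := single_le_sum (f := fun y => |(P (mu (ST p k r)) ^ t) x y - c|)
    (fun _ _ => abs_nonneg _) (mem_univ y)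
  linarith [neg_le_abs ((P (mu (ST p k r)) ^ t) x y - c)]

lemma gp (hp : 4 * (k + 2) ≤ p) : lam2 (mu (ST p k r)) ≤ 7 / 8 := by
  refine Real.sSup_le ?_ (by norm_num)
  rintro l ⟨hl, f, hf, he⟩
  rw [PQ ST_neg] at he
  replace he : A (ST p k r) f = l • f := (mulVec_A (S := ST p k r) f).symm.trans he
  have s1 : (1 : ℝ) ≤ (SS p k r).card := by exact_mod_cast SS_ne.card_pos
  have a : 1 / 2 + (((SS p k r).card + 1) * l - 1) / (2 * (SS p k r).card) ≤
      MP_8d2225_pr.NoCutoff.lam2 (SS p k r) := by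
    refine le_csSup ⟨1, ?_⟩ ⟨fun h => hl ?_, f, hf, ?_⟩
    · rintro l ⟨-, f, hf, he⟩
      rw [mulVec_eq] at he
      simpa using eig hf he (kill (c := 0) SS_ne zero_nm (empty_subset _) (by simp) (by simp))
    · field_simp at h
      nlinarith
    · rw [mulVec_eq]
      ext y
      have := congrFun he y
      simp only [A, ST_card, Pi.smul_apply, smul_eq_mul] at this
      simp only [ST, sum_insert zero_nm, add_zero] at this
      show 1 / 2 * f y + 1 / (2 * ((SS p k r).card : ℝ)) * ∑ s ∈ SS p k r, f (y + s) = _ * f y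
      field_simp at this ⊢
      linarith
  have b := a.trans (gap hp)
  rw [← le_sub_iff_add_le', div_le_iff₀ (by positivity)] at b
  nlinarith

lemma times (m : ℕ) (hm : 10 ≤ m) (hr : r = 6 * m) (hk : k = 8 * m) (hp : 4 ≤ p) :
    4 * m < Tmix (mu (ST p k r)) (1 / 4) ∧ 0 < Tmix (mu (ST p k r)) (1 - 1 / 4) ∧
      Tmix (mu (ST p k r)) (1 - 1 / 4) ≤ 3 * m + 1 := by
  have r0 : (r : ℝ) = 6 * m := by exact_mod_cast hr
  have m0 : (10 : ℝ) ≤ m := by exact_mod_cast hm
  have p0 : 1 / (p : ℝ) ^ 2 ≤ 1 / 4 ^ 2 := by gcongr; exact_mod_cast hp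
  have b0 : (0 : ℝ) < 1 / (r + 2) := by positivity
  have b1 : (1 : ℝ) / (r + 2) < 1 := by rw [div_lt_one (by positivity)]; linarith
  have u : d (mu (ST p k r)) (3 * m + 1) ≤ 1 - 1 / 4 := by
    refine (d_up _).trans ?_
    have a1 : (1 - 1 / 3 : ℝ) ^ (3 * m + 1) ≤ (1 - 1 / 3) ^ 10 :=
      pow_le_pow_of_le_one (by norm_num) (by norm_num) (by omega)
    have a2 := one_add_mul_le_pow (a := 1 / ((r : ℝ) + 2)) (by linarith) (3 * m + 1)
    have a3 : ((3 * m + 1 : ℕ) : ℝ) * (1 / (r + 2)) = 1 / 2 := by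
      push_cast; rw [r0]; field_simp; ring
    have a4 : (1 + 1 / ((r : ℝ) + 2)) ^ (3 * m + 1) * (1 - 1 / (r + 2)) ^ (3 * m + 1) ≤ 1 := by
      rw [← mul_pow]; exact pow_le_one₀ (by nlinarith) (by nlinarith)
    have a5 : 0 ≤ (1 - 1 / ((r : ℝ) + 2)) ^ (3 * m + 1) := pow_nonneg (by linarith) _
    rw [a3] at a2
    nlinarith [mul_le_mul_of_nonneg_right a2 a5]
  refine ⟨lt_of_not_ge fun h => ?_, Nat.pos_of_ne_zero fun h => ?_, Nat.sInf_le u⟩
  · have a1 : d (mu (ST p k r)) (Tmix (mu (ST p k r)) (1 / 4)) ≤ 1 / 4 :=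
      Nat.sInf_mem (s := {t | d (mu (ST p k r)) t ≤ 1 / 4}) (d_small (by norm_num))
    have a2 := d_low (p := p) (k := k) (r := r) _
      (by omega : 2 * Tmix (mu (ST p k r)) (1 / 4) ≤ k)
    have a3 : (Tmix (mu (ST p k r)) (1 / 4) : ℝ) / r ≤ 2 / 3 := by
      have : (Tmix (mu (ST p k r)) (1 / 4) : ℝ) ≤ 4 * m := by exact_mod_cast h
      rw [div_le_iff₀ (by linarith)]; linarith
    linarith
  · have a1 : d (mu (ST p k r)) (Tmix (mu (ST p k r)) (1 - 1 / 4)) ≤ 1 - 1 / 4 :=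
      Nat.sInf_mem (s := {t | d (mu (ST p k r)) t ≤ 1 - 1 / 4}) ⟨_, u⟩
    have a2 := d_low (p := p) (k := k) (r := r) 0 (by omega)
    rw [h] at a1
    simp only [Nat.cast_zero, zero_div] at a2
    linarith

/-- Irreducible aperiodic simple random walks on Cayley graphs of nilpotent groups of step at most
one that satisfy the product condition but have no cutoff. -/
theorem result : ∃ (G : ℕ → Type) (_ : ∀ n, Group (G n)) (_ : ∀ n, Fintype (G n))
    (_ : ∀ n, DecidableEq (G n)) (Z : ∀ n, Finset (G n)),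
    (∀ n, Group.IsNilpotent (G n) ∧ Group.nilpotencyClass (G n) ≤ 1) ∧
    (∀ n, ∃ t, ∀ x y, 0 < (P (Z n) ^ t) x y) ∧
    Tendsto (fun n => Fintype.card (G n)) atTop atTop ∧
    Tendsto (fun n => (Tmix (Z n) (1 / 4) : ℝ) * (1 - lam2 (Z n))) atTop atTop ∧
    ¬ ∀ ε : ℝ, 0 < ε → ε < 1 →
      Tendsto (fun n => (Tmix (Z n) ε : ℝ) / Tmix (Z n) (1 - ε)) atTop (𝓝 1) := by
  choose p hp pr using fun n : ℕ => Nat.exists_infinite_primes (4 * (8 * (n + 10) + 2))
  haveI : ∀ n, Fact (p n).Prime := fun n => ⟨pr n⟩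
  haveI : ∀ n : ℕ, NeZero (6 * (n + 10)) := fun n => ⟨by omega⟩
  have T := fun n => times (p := p n) (k := 8 * (n + 10)) (r := 6 * (n + 10)) (n + 10) (by omega)
    rfl rfl (by have := hp n; omega)
  refine ⟨fun n => Multiplicative (GG (p n) (8 * (n + 10)) (6 * (n + 10))), inferInstance,
    inferInstance, inferInstance, fun n => mu (ST _ _ _), fun n => ?_, fun n => prim, ?_, ?_,
    fun h => ?_⟩
  · exact ⟨inferInstance, CommGroup.nilpotencyClass_le_one⟩
  · exact tendsto_atTop_mono (fun n => le_trans (by dsimp; omega)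
      (card_ge (p := p n) (k := 8 * (n + 10)) (r := 6 * (n + 10)))) tendsto_id
  · refine tendsto_atTop_mono (fun n => ?_)
      (tendsto_natCast_atTop_atTop.const_mul_atTop (by norm_num : (0 : ℝ) < 1 / 8))
    have a := gp (r := 6 * (n + 10)) (hp n)
    have b : (n : ℝ) ≤ Tmix (mu (ST (p n) (8 * (n + 10)) (6 * (n + 10)))) (1 / 4) := by
      exact_mod_cast (by have := (T n).1; omega)
    rw [mul_comm]
    exact mul_le_mul b (by linarith) (by norm_num) (by positivity)
  · refine absurd (ge_of_tendsto' (b := 5 / 4) (h (1 / 4) (by norm_num) (by norm_num)) fun n => ?_)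
      (by norm_num)
    obtain ⟨a, b, c⟩ := T n
    beta_reduce
    rw [le_div_iff₀ (by exact_mod_cast b), div_mul_eq_mul_div, div_le_iff₀ (by norm_num)]
    exact_mod_cast (by omega)

end

end Pool.Agent.Results.MP_7f396f_pr.NoCutoff
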